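import Mathlib

/-!
# The graph of a list of non-crossing constraints

Vertices are labelled by pairs `(type, index)`: `(0, t)` is the centre of the star of the leg `t`,
`(2, t)` is its root, `(3, i)` is the slot `i % 4` of the constraint `i / 4`, and `(1, h)` is a hub.
-/

namespace Pool.Agent.H558Z.Alt

/-- quadruples -/
abbrev Quad : Type := ℕ × ℕ × ℕ × ℕ

/-- the leg of the slot `i` -/
def leg (Q : List Quad) (i : ℕ) : ℕ :=
  if i % 4 = 0 then (Q.getD (i / 4) (0, 0, 0, 0)).1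
  else if i % 4 = 1 then (Q.getD (i / 4) (0, 0, 0, 0)).2.1
  else if i % 4 = 2 then (Q.getD (i / 4) (0, 0, 0, 0)).2.2.1
  else (Q.getD (i / 4) (0, 0, 0, 0)).2.2.2

/-- oriented adjacency -/
def ed (Q : List Quad) (x y : ℕ × ℕ) : Bool :=
  (decide (x.1 = 0) && decide (y.1 = 2) && decide (x.2 = y.2)) ||
  (decide (x.1 = 0) && decide (y.1 = 3) && decide (y.2 < 4 * Q.length) &&
    decide (leg Q y.2 = x.2)) ||
  (decide (x.1 = 1) && decide (y.1 = 2)) ||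
  (decide (x.1 = 1) && decide (y.1 = 3) && decide (y.2 < 4 * Q.length) &&
    (decide (y.2 / 4 + 1 < x.2 / 2) ||
      (decide (y.2 / 4 + 1 = x.2 / 2) && decide (y.2 % 4 / 2 = x.2 % 2))))

/-- adjacency -/
def ad (Q : List Quad) (x y : ℕ × ℕ) : Bool := ed Q x y || ed Q y x

theorem ed_iff (Q : List Quad) (x y : ℕ × ℕ) : ed Q x y = true ↔
    (x.1 = 0 ∧ y.1 = 2 ∧ x.2 = y.2) ∨
    (x.1 = 0 ∧ y.1 = 3 ∧ y.2 < 4 * Q.length ∧ leg Q y.2 = x.2) ∨
    (x.1 = 1 ∧ y.1 = 2) ∨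
    (x.1 = 1 ∧ y.1 = 3 ∧ y.2 < 4 * Q.length ∧
      (y.2 / 4 + 1 < x.2 / 2 ∨ (y.2 / 4 + 1 = x.2 / 2 ∧ y.2 % 4 / 2 = x.2 % 2))) := by
  unfold ed
  simp only [Bool.or_eq_true, Bool.and_eq_true, decide_eq_true_eq, and_assoc, or_assoc]

theorem ed13 (Q : List Quad) (h i : ℕ) : ed Q (1, h) (3, i) = true ↔
    i < 4 * Q.length ∧ (i / 4 + 1 < h / 2 ∨ (i / 4 + 1 = h / 2 ∧ i % 4 / 2 = h % 2)) := by
  rw [ed_iff]
  simp

theorem ad_iff (Q : List Quad) (x y : ℕ × ℕ) :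
    ad Q x y = true ↔ ed Q x y = true ∨ ed Q y x = true := by
  unfold ad
  simp only [Bool.or_eq_true]

theorem ad_symm (Q : List Quad) (x y : ℕ × ℕ) : ad Q x y = ad Q y x := by
  unfold ad
  exact Bool.or_comm _ _

theorem ed_type {Q : List Quad} {x y : ℕ × ℕ} (h : ed Q x y = true) : x.1 < 2 ∧ 2 ≤ y.1 := by
  rw [ed_iff] at h
  omega

theorem ad_irrefl (Q : List Quad) (x : ℕ × ℕ) : ad Q x x = false := by
  rw [← Bool.not_eq_true, ad_iff, or_self]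
  intro h
  have := ed_type h
  omega

/-- `z` lies strictly between `a` and `c` -/
def Bt (a c z : ℕ) : Prop := (a < z ∧ z < c) ∨ (c < z ∧ z < a)

/-- `z` lies strictly outside of the interval spanned by `a` and `c` -/
def Ou (a c z : ℕ) : Prop := (z < a ∧ z < c) ∨ (a < z ∧ c < z)

/-- strong separation -/
def Sep (p q r s : ℕ) : Prop := (Bt p q r ∧ Bt p q s) ∨ (Ou p q r ∧ Ou p q s)

/-! ### Completeness -/

/-- the key of a vertex -/
def key (Q : List Quad) (pos : ℕ → ℕ) (x : ℕ × ℕ) : ℕ :=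
  if x.1 = 1 then 2 * pos (leg Q (4 * (x.2 / 2 - 1) + 2 * (x.2 % 2))) + 1
  else if x.1 = 3 then 2 * pos (leg Q x.2) else 2 * pos x.2

theorem leg_mem {Q : List Quad} {j : ℕ} (hj : j < Q.length) :
    (leg Q (4 * j), leg Q (4 * j + 1), leg Q (4 * j + 2), leg Q (4 * j + 3)) ∈ Q := by
  have e0 : leg Q (4 * j) = (Q.getD j (0, 0, 0, 0)).1 := by
    unfold leg
    rw [if_pos (by omega), show 4 * j / 4 = j by omega]
  have e1 : leg Q (4 * j + 1) = (Q.getD j (0, 0, 0, 0)).2.1 := by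
    unfold leg
    rw [if_neg (by omega), if_pos (by omega), show (4 * j + 1) / 4 = j by omega]
  have e2 : leg Q (4 * j + 2) = (Q.getD j (0, 0, 0, 0)).2.2.1 := by
    unfold leg
    rw [if_neg (by omega), if_neg (by omega), if_pos (by omega), show (4 * j + 2) / 4 = j by omega]
  have e3 : leg Q (4 * j + 3) = (Q.getD j (0, 0, 0, 0)).2.2.2 := by
    unfold leg
    rw [if_neg (by omega), if_neg (by omega), if_neg (by omega), show (4 * j + 3) / 4 = j by omega]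
  rw [e0, e1, e2, e3, List.getD_eq_getElem _ _ hj]
  exact List.getElem_mem _

theorem exists_leg {Q : List Quad} {q : Quad} (hq : q ∈ Q) : ∃ j, j < Q.length ∧
    (leg Q (4 * j), leg Q (4 * j + 1), leg Q (4 * j + 2), leg Q (4 * j + 3)) = q := by
  obtain ⟨j, hj, rfl⟩ := List.getElem_of_mem hq
  refine ⟨j, hj, ?_⟩
  have e0 : leg Q (4 * j) = (Q.getD j (0, 0, 0, 0)).1 := by
    unfold leg
    rw [if_pos (by omega), show 4 * j / 4 = j by omega]
  have e1 : leg Q (4 * j + 1) = (Q.getD j (0, 0, 0, 0)).2.1 := by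
    unfold leg
    rw [if_neg (by omega), if_pos (by omega), show (4 * j + 1) / 4 = j by omega]
  have e2 : leg Q (4 * j + 2) = (Q.getD j (0, 0, 0, 0)).2.2.1 := by
    unfold leg
    rw [if_neg (by omega), if_neg (by omega), if_pos (by omega), show (4 * j + 2) / 4 = j by omega]
  have e3 : leg Q (4 * j + 3) = (Q.getD j (0, 0, 0, 0)).2.2.2 := by
    unfold leg
    rw [if_neg (by omega), if_neg (by omega), if_neg (by omega), show (4 * j + 3) / 4 = j by omega]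
  rw [e0, e1, e2, e3, List.getD_eq_getElem _ _ hj]

/-- all legs are smaller than `M` -/
def Bd (Q : List Quad) (M : ℕ) : Prop := ∀ q ∈ Q, q.1 < M ∧ q.2.1 < M ∧ q.2.2.1 < M ∧ q.2.2.2 < M

theorem leg_lt {Q : List Quad} {M : ℕ} (hB : Bd Q M) {i : ℕ} (hi : i < 4 * Q.length) :
    leg Q i < M := by
  have h := hB _ (leg_mem (Q := Q) (j := i / 4) (by omega))
  simp only at h
  have : i = 4 * (i / 4) ∨ i = 4 * (i / 4) + 1 ∨ i = 4 * (i / 4) + 2 ∨ i = 4 * (i / 4) + 3 := by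
    omega
  rcases this with e | e | e | e <;> rw [e] <;> tauto

/-- weak alternation -/
def W (a b c d : ℕ) : Prop := a ≤ b ∧ b ≤ c ∧ c ≤ d

section

variable {Q : List Quad} {M : ℕ} {pos : ℕ → ℕ}

/-- an edge at the centre of a star stays in the block -/
theorem key_star {x y : ℕ × ℕ} (h : ed Q x y = true) (hx : x.1 = 0) :
    key Q pos x = 2 * pos x.2 ∧ key Q pos y = 2 * pos x.2 := by
  rw [ed_iff] at h
  unfold key
  rcases h with ⟨_, h2, h3⟩ | ⟨_, h2, _, h3⟩ | ⟨h1, _⟩ | ⟨h1, _⟩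
  · rw [if_neg (by omega), if_neg (by omega), if_neg (by omega), if_neg (by omega), h3]
    exact ⟨rfl, rfl⟩
  · rw [if_neg (by omega), if_neg (by omega), if_neg (by omega), if_pos h2, h3]
    exact ⟨rfl, rfl⟩
  · omega
  · omega

/-- vertices outside of a star are outside of its block -/
theorem key_out (hB : Bd Q M) (hinj : ∀ s < M, ∀ t < M, pos s = pos t → s = t)
    {x x' y' : ℕ × ℕ} (hx : x.1 = 0) (hxM : x.2 < M) (hx'M : x'.2 < M) (hy'M : y'.2 < M)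
    (h : ed Q x' y' = true) (hn : ¬ ed Q x y' = true) :
    key Q pos x' ≠ 2 * pos x.2 ∧ key Q pos y' ≠ 2 * pos x.2 := by
  rw [ed_iff] at h hn
  unfold key
  rcases h with ⟨h1, h2, h3⟩ | ⟨h1, h2, h4, h3⟩ | ⟨h1, h2⟩ | ⟨h1, h2, h4, _⟩
  · rw [if_neg (by omega), if_neg (by omega), if_neg (by omega), if_neg (by omega), h3]
    have : pos y'.2 ≠ pos x.2 := fun e => hn (Or.inl ⟨hx, h2, (hinj _ hy'M _ hxM e).symm⟩)
    omega
  · rw [if_neg (by omega), if_neg (by omega), if_neg (by omega), if_pos h2, h3]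
    have : pos x'.2 ≠ pos x.2 := fun e =>
      hn (Or.inr (Or.inl ⟨hx, h2, h4, h3.trans (hinj _ hx'M _ hxM e)⟩))
    omega
  · rw [if_pos h1, if_neg (by omega), if_neg (by omega)]
    have : pos y'.2 ≠ pos x.2 := fun e => hn (Or.inl ⟨hx, h2, (hinj _ hy'M _ hxM e).symm⟩)
    omega
  · rw [if_pos h1, if_neg (by omega), if_pos h2]
    have : pos (leg Q y'.2) ≠ pos x.2 := fun e =>
      hn (Or.inr (Or.inl ⟨hx, h2, h4, hinj _ (leg_lt hB h4) _ hxM e⟩))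
    omega

theorem two_edges (hB : Bd Q M) (hinj : ∀ s < M, ∀ t < M, pos s = pos t → s = t)
    (hS : ∀ q ∈ Q, Sep (pos q.1) (pos q.2.1) (pos q.2.2.1) (pos q.2.2.2))
    {x y x' y' : ℕ × ℕ} (hxM : x.2 < M) (hyM : y.2 < M) (hx'M : x'.2 < M) (hy'M : y'.2 < M)
    (h : ed Q x y = true) (h' : ed Q x' y' = true) (hn : ¬ ed Q x y' = true)
    (hn' : ¬ ed Q x' y = true) :
    ¬ W (key Q pos x) (key Q pos x') (key Q pos y) (key Q pos y') ∧
    ¬ W (key Q pos x) (key Q pos y') (key Q pos y) (key Q pos x') ∧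
    ¬ W (key Q pos y) (key Q pos x') (key Q pos x) (key Q pos y') ∧
    ¬ W (key Q pos y) (key Q pos y') (key Q pos x) (key Q pos x') := by
  by_cases hx : x.1 = 0
  · have h1 := key_star (pos := pos) h hx
    have h2 := key_out hB hinj hx hxM hx'M hy'M h' hn
    unfold W
    omega
  by_cases hx' : x'.1 = 0
  · have h1 := key_star (pos := pos) h' hx'
    have h2 := key_out hB hinj hx' hx'M hxM hyM h hn'
    unfold W
    omega
  have t1 : x.1 = 1 := by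
    have := ed_type h
    omega
  have t2 : x'.1 = 1 := by
    have := ed_type h'
    omega
  have hub : ∀ {u v w : ℕ × ℕ}, u.1 = 1 → v.1 = 1 → ed Q u w = true → ¬ ed Q v w = true →
      w.1 = 3 ∧ w.2 < 4 * Q.length ∧
      (w.2 / 4 + 1 < u.2 / 2 ∨ (w.2 / 4 + 1 = u.2 / 2 ∧ w.2 % 4 / 2 = u.2 % 2)) ∧
      ¬ (w.2 / 4 + 1 < v.2 / 2 ∨ (w.2 / 4 + 1 = v.2 / 2 ∧ w.2 % 4 / 2 = v.2 % 2)) := by
    intro u v w hu hv p q
    rw [ed_iff] at p q
    rcases p with ⟨p1, _⟩ | ⟨p1, _⟩ | ⟨_, p2⟩ | ⟨_, p2, p3, p4⟩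
    · rw [hu] at p1
      exact absurd p1 (by decide)
    · rw [hu] at p1
      exact absurd p1 (by decide)
    · exact absurd (Or.inr (Or.inr (Or.inl ⟨hv, p2⟩))) q
    · exact ⟨p2, p3, p4, fun e => q (Or.inr (Or.inr (Or.inr ⟨hv, p2, p3, e⟩)))⟩
  obtain ⟨t3, l1, a1, a4⟩ := hub t1 t2 h hn'
  obtain ⟨t4, l2, a2, a3⟩ := hub t2 t1 h' hn
  clear h h' hn hn' hub
  obtain ⟨j, hj⟩ : ∃ j, j = y.2 / 4 := ⟨_, rfl⟩
  have hS' := hS _ (leg_mem (Q := Q) (j := j) (by omega))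
  simp only at hS'
  have k1 : key Q pos x = 2 * pos (leg Q (4 * j + 2 * (x.2 % 2))) + 1 := by
    unfold key
    rw [if_pos t1, show x.2 / 2 - 1 = j by omega]
  have k2 : key Q pos x' = 2 * pos (leg Q (4 * j + 2 * (x'.2 % 2))) + 1 := by
    unfold key
    rw [if_pos t2, show x'.2 / 2 - 1 = j by omega]
  have k3 : key Q pos y = 2 * pos (leg Q y.2) := by
    unfold key
    rw [if_neg (by omega), if_pos t3]
  have k4 : key Q pos y' = 2 * pos (leg Q y'.2) := by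
    unfold key
    rw [if_neg (by omega), if_pos t4]
  rw [k1, k2, k3, k4]
  have c : (x.2 % 2 = 0 ∧ x'.2 % 2 = 1 ∧ (y.2 = 4 * j ∨ y.2 = 4 * j + 1) ∧
      (y'.2 = 4 * j + 2 ∨ y'.2 = 4 * j + 3)) ∨
      (x.2 % 2 = 1 ∧ x'.2 % 2 = 0 ∧ (y'.2 = 4 * j ∨ y'.2 = 4 * j + 1) ∧
      (y.2 = 4 * j + 2 ∨ y.2 = 4 * j + 3)) := by omega
  unfold Sep Bt Ou at hS'
  unfold W
  rcases c with ⟨e1, e2, e3 | e3, e4 | e4⟩ | ⟨e1, e2, e3 | e3, e4 | e4⟩ <;>
    rw [e1, e2, e3, e4] <;> simp only [mul_zero, add_zero, mul_one] <;> omega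

theorem complete (hB : Bd Q M) (hinj : ∀ s < M, ∀ t < M, pos s = pos t → s = t)
    (hS : ∀ q ∈ Q, Sep (pos q.1) (pos q.2.1) (pos q.2.2.1) (pos q.2.2.2))
    {a b c d : ℕ × ℕ} (ha : a.2 < M) (hb : b.2 < M) (hc : c.2 < M) (hd : d.2 < M)
    (hW : W (key Q pos a) (key Q pos b) (key Q pos c) (key Q pos d))
    (h : ad Q a c = true) (h' : ad Q b d = true) :
    ad Q a b = true ∨ ad Q b c = true ∨ ad Q c d = true ∨ ad Q d a = true := by
  by_contra hcon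
  simp only [ad_iff, not_or] at hcon h h'
  obtain ⟨⟨n1, n2⟩, ⟨n3, n4⟩, ⟨n5, n6⟩, ⟨n7, n8⟩⟩ := hcon
  rcases h with h | h <;> rcases h' with h' | h'
  · exact (two_edges hB hinj hS ha hc hb hd h h' n8 n3).1 hW
  · exact (two_edges hB hinj hS ha hc hd hb h h' n1 n6).2.1 hW
  · exact (two_edges hB hinj hS hc ha hb hd h h' n5 n2).2.2.1 hW
  · exact (two_edges hB hinj hS hc ha hd hb h h' n4 n7).2.2.2 hW

end

/-! ### Soundness -/

/-- the condition on a numbering of the labels -/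
structure Num (Q : List Quad) (M : ℕ) (g : ℕ × ℕ → ℕ) : Prop where
  inj : ∀ x y : ℕ × ℕ, x.1 < 4 → x.2 < M → y.1 < 4 → y.2 < M → g x = g y → x = y
  good : ∀ a b c d : ℕ × ℕ, a.1 < 4 → a.2 < M → b.1 < 4 → b.2 < M → c.1 < 4 → c.2 < M →
    d.1 < 4 → d.2 < M → g a < g b → g b < g c → g c < g d → ad Q a c = true → ad Q b d = true →
    ad Q a b = true ∨ ad Q b c = true ∨ ad Q c d = true ∨ ad Q d a = true

section

variable {Q : List Quad} {M : ℕ} {g : ℕ × ℕ → ℕ}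

theorem ed_lt {x y : ℕ × ℕ} (h : ed Q x y = true) : x.1 < 4 ∧ y.1 < 4 := by
  rw [ed_iff] at h
  omega

theorem side (hg : Num Q M g) {x y x' y' : ℕ × ℕ} (hxM : x.2 < M) (hyM : y.2 < M)
    (hx'M : x'.2 < M) (hy'M : y'.2 < M) (h : ed Q x y = true) (h' : ed Q x' y' = true)
    (hn : ¬ ed Q x y' = true) (hn' : ¬ ed Q x' y = true) :
    (Bt (g x) (g y) (g x') ↔ Bt (g x) (g y) (g y')) := by
  have t1 := ed_type h
  have t2 := ed_type h'
  have u1 := ed_lt h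
  have u2 := ed_lt h'
  have n1 : ¬ ad Q x x' = true := by
    rw [ad_iff]
    rintro (e | e) <;> have := ed_type e <;> omega
  have n2 : ¬ ad Q y y' = true := by
    rw [ad_iff]
    rintro (e | e) <;> have := ed_type e <;> omega
  have n3 : ¬ ad Q x y' = true := by
    rw [ad_iff]
    rintro (e | e)
    · exact hn e
    · have := ed_type e
      omega
  have n4 : ¬ ad Q x' y = true := by
    rw [ad_iff]
    rintro (e | e)
    · exact hn' e
    · have := ed_type e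
      omega
  have p1 : ad Q x y = true := (ad_iff _ _ _).2 (Or.inl h)
  have p2 : ad Q x' y' = true := (ad_iff _ _ _).2 (Or.inl h')
  have p1' : ad Q y x = true := (ad_iff _ _ _).2 (Or.inr h)
  have p2' : ad Q y' x' = true := (ad_iff _ _ _).2 (Or.inr h')
  have n1' : ¬ ad Q x' x = true := by rwa [ad_symm]
  have n2' : ¬ ad Q y' y = true := by rwa [ad_symm]
  have n3' : ¬ ad Q y' x = true := by rwa [ad_symm]
  have n4' : ¬ ad Q y x' = true := by rwa [ad_symm]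
  have d1 : g x ≠ g x' := fun e => hn (by rw [hg.inj x x' u1.1 hxM u2.1 hx'M e]; exact h')
  have d2 : g y ≠ g y' := fun e => hn (by rw [← hg.inj y y' u1.2 hyM u2.2 hy'M e]; exact h)
  have d3 : g x ≠ g y' := fun e => by
    have := hg.inj x y' u1.1 hxM u2.2 hy'M e
    rw [this] at t1
    omega
  have d4 : g x' ≠ g y := fun e => by
    have := hg.inj x' y u2.1 hx'M u1.2 hyM e
    rw [this] at t2
    omega
  have o1 := hg.good x x' y y' u1.1 hxM u2.1 hx'M u1.2 hyM u2.2 hy'M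
  have o2 := hg.good x y' y x' u1.1 hxM u2.2 hy'M u1.2 hyM u2.1 hx'M
  have o3 := hg.good y x' x y' u1.2 hyM u2.1 hx'M u1.1 hxM u2.2 hy'M
  have o4 := hg.good y y' x x' u1.2 hyM u2.2 hy'M u1.1 hxM u2.1 hx'M
  have o5 := hg.good x' x y' y u2.1 hx'M u1.1 hxM u2.2 hy'M u1.2 hyM
  have o6 := hg.good x' y y' x u2.1 hx'M u1.2 hyM u2.2 hy'M u1.1 hxM
  have o7 := hg.good y' x x' y u2.2 hy'M u1.1 hxM u2.1 hx'M u1.2 hyM
  have o8 := hg.good y' y x' x u2.2 hy'M u1.2 hyM u2.1 hx'M u1.1 hxM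
  simp only [p1, p2, p1', p2', n1, n2, n3, n4, n1', n2', n3', n4', or_self, forall_const,
    Bool.false_eq_true, imp_false] at o1 o2 o3 o4 o5 o6 o7 o8
  unfold Bt
  omega

/-- everything in the other legs is on the same side of an edge of a star as the first hub -/
theorem star_side (hg : Num Q M g) (hB : Bd Q M) (hM : 4 * Q.length ≤ M) {i k : ℕ}
    (hi : i < 4 * Q.length) (hk : k < 4 * Q.length) (hne : leg Q i ≠ leg Q k) :
    (Bt (g (0, leg Q i)) (g (3, i)) (g (0, leg Q k)) ↔ Bt (g (0, leg Q i)) (g (3, i)) (g (1, 0))) ∧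
    (Bt (g (0, leg Q i)) (g (3, i)) (g (3, k)) ↔ Bt (g (0, leg Q i)) (g (3, i)) (g (1, 0))) := by
  have l1 := leg_lt hB hi
  have l2 := leg_lt hB hk
  have e0 : ed Q (0, leg Q i) (3, i) = true := by rw [ed_iff]; simp [hi]
  have s1 := side hg (x := (0, leg Q i)) (y := (3, i)) (x' := (0, leg Q k)) (y' := (2, leg Q k))
    l1 (by simp only; omega) l2 l2 e0 (by rw [ed_iff]; simp) (by rw [ed_iff]; simp [hne])
    (by rw [ed_iff]; simp [hne])
  have s2 := side hg (x := (0, leg Q i)) (y := (3, i)) (x' := (1, 0)) (y' := (2, leg Q k))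
    l1 (by simp only; omega) (by simp only; omega) l2 e0 (by rw [ed_iff]; simp)
    (by rw [ed_iff]; simp [hne]) (by rw [ed_iff]; simp)
  have s3 := side hg (x := (0, leg Q i)) (y := (3, i)) (x' := (0, leg Q k)) (y' := (3, k))
    l1 (by simp only; omega) l2 (by simp only; omega) e0 (by rw [ed_iff]; simp [hk])
    (by rw [ed_iff]; simp [hne.symm]) (by rw [ed_iff]; simp [hne])
  exact ⟨s1.trans s2.symm, s3.symm.trans (s1.trans s2.symm)⟩

theorem move {p y q r s : ℕ} (_h1 : p ≠ q) (h2 : p ≠ r) (h3 : p ≠ s) (h4 : y ≠ q) (h5 : y ≠ r)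
    (h6 : y ≠ s) (h7 : q ≠ r) (h8 : q ≠ s) (e1 : Bt p y r ↔ Bt p y s)
    (h : Bt y q r ↔ Bt y q s) : Bt p q r ↔ Bt p q s := by
  unfold Bt at *
  omega

theorem bt_comm (a c z : ℕ) : Bt a c z ↔ Bt c a z := by
  unfold Bt
  omega

theorem swap_pairs {p q r s : ℕ} (h2 : p ≠ r) (h3 : p ≠ s) (h7 : q ≠ r) (h8 : q ≠ s)
    (h : Bt p q r ↔ Bt p q s) : Bt r s p ↔ Bt r s q := by
  unfold Bt at *
  omega

theorem sound (hg : Num Q M g) (hB : Bd Q M) (hM : 4 * Q.length + 2 ≤ M) {q : Quad} (hq : q ∈ Q)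
    (d1 : q.1 ≠ q.2.1) (d2 : q.1 ≠ q.2.2.1) (d3 : q.1 ≠ q.2.2.2) (d4 : q.2.1 ≠ q.2.2.1)
    (d5 : q.2.1 ≠ q.2.2.2) (d6 : q.2.2.1 ≠ q.2.2.2) :
    (Bt (g (0, q.1)) (g (0, q.2.1)) (g (0, q.2.2.1)) ↔
      Bt (g (0, q.1)) (g (0, q.2.1)) (g (0, q.2.2.2))) := by
  obtain ⟨j, hj, rfl⟩ := exists_leg hq
  simp only at d1 d2 d3 d4 d5 d6 ⊢
  have hM' : 4 * Q.length ≤ M := by omega
  have i0 : 4 * j < 4 * Q.length := by omega
  have i1 : 4 * j + 1 < 4 * Q.length := by omega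
  have i2 : 4 * j + 2 < 4 * Q.length := by omega
  have i3 : 4 * j + 3 < 4 * Q.length := by omega
  have ne : ∀ x y : ℕ × ℕ, x.1 < 4 → x.2 < M → y.1 < 4 → y.2 < M → x ≠ y → g x ≠ g y :=
    fun x y a b c d h e => h (hg.inj x y a b c d e)
  have l0 := leg_lt hB i0
  have l1 := leg_lt hB i1
  have l2 := leg_lt hB i2
  have l3 := leg_lt hB i3
  have nAA : ∀ s t, s < M → t < M → s ≠ t → g (0, s) ≠ g (0, t) := fun s t a b h =>
    ne _ _ (by simp) a (by simp) b (by simp [h])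
  have nAY : ∀ s t, s < M → t < M → g (0, s) ≠ g (3, t) := fun s t a b =>
    ne _ _ (by simp) a (by simp) b (by simp)
  have nYY : ∀ s t, s < M → t < M → s ≠ t → g (3, s) ≠ g (3, t) := fun s t a b h =>
    ne _ _ (by simp) a (by simp) b (by simp [h])
  have nHY : ∀ s t, s < M → t < M → g (1, s) ≠ g (3, t) := fun s t a b =>
    ne _ _ (by simp) a (by simp) b (by simp)
  -- the two hubs of the constraint
  have hub : ∀ k, k = 2 ∨ k = 3 → ∀ l, l = 0 ∨ l = 1 →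
      (Bt (g (1, 2 * j + 3)) (g (3, 4 * j + k)) (g (1, 2 * j + 2)) ↔
        Bt (g (1, 2 * j + 3)) (g (3, 4 * j + k)) (g (3, 4 * j + l))) := by
    intro k hk l hl
    refine side hg (by simp only; omega) (by simp only; omega) (by simp only; omega)
      (by simp only; omega) ?_ ?_ ?_ ?_ <;> rw [ed13] <;> omega
  have b2 := (hub 2 (by omega) 0 (by omega)).symm.trans (hub 2 (by omega) 1 (by omega))
  have b3 := (hub 3 (by omega) 0 (by omega)).symm.trans (hub 3 (by omega) 1 (by omega))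
  simp only [add_zero] at b2 b3
  have y23 : Bt (g (3, 4 * j + 2)) (g (3, 4 * j + 3)) (g (3, 4 * j)) ↔
      Bt (g (3, 4 * j + 2)) (g (3, 4 * j + 3)) (g (3, 4 * j + 1)) := by
    refine move (y := g (1, 2 * j + 3)) (nYY _ _ ?_ ?_ ?_) (nYY _ _ ?_ ?_ ?_) (nYY _ _ ?_ ?_ ?_)
      (nHY _ _ ?_ ?_) (nHY _ _ ?_ ?_) (nHY _ _ ?_ ?_) (nYY _ _ ?_ ?_ ?_) (nYY _ _ ?_ ?_ ?_)
      (by rw [bt_comm, bt_comm (g (3, 4 * j + 2))]; exact b2) b3 <;> omega
  -- move the slots to the centres of the stars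
  have s20 := star_side hg hB hM' i2 i0 d2.symm
  have s21 := star_side hg hB hM' i2 i1 d4.symm
  have s30 := star_side hg hB hM' i3 i0 d3.symm
  have s31 := star_side hg hB hM' i3 i1 d5.symm
  have s02 := star_side hg hB hM' i0 i2 d2
  have s03 := star_side hg hB hM' i0 i3 d3
  have s12 := star_side hg hB hM' i1 i2 d4
  have s13 := star_side hg hB hM' i1 i3 d5
  have m1 : Bt (g (0, leg Q (4 * j + 2))) (g (3, 4 * j + 3)) (g (3, 4 * j)) ↔
      Bt (g (0, leg Q (4 * j + 2))) (g (3, 4 * j + 3)) (g (3, 4 * j + 1)) := by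
    refine move (y := g (3, 4 * j + 2)) (nAY _ _ ?_ ?_) (nAY _ _ ?_ ?_) (nAY _ _ ?_ ?_)
      (nYY _ _ ?_ ?_ ?_) (nYY _ _ ?_ ?_ ?_) (nYY _ _ ?_ ?_ ?_) (nYY _ _ ?_ ?_ ?_)
      (nYY _ _ ?_ ?_ ?_) (s20.2.trans s21.2.symm) y23 <;> omega
  have m2 : Bt (g (0, leg Q (4 * j + 3))) (g (0, leg Q (4 * j + 2))) (g (3, 4 * j)) ↔
      Bt (g (0, leg Q (4 * j + 3))) (g (0, leg Q (4 * j + 2))) (g (3, 4 * j + 1)) := by
    refine move (y := g (3, 4 * j + 3)) (nAA _ _ ?_ ?_ ?_) (nAY _ _ ?_ ?_) (nAY _ _ ?_ ?_)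
      (nAY _ _ ?_ ?_).symm (nYY _ _ ?_ ?_ ?_) (nYY _ _ ?_ ?_ ?_) (nAY _ _ ?_ ?_)
      (nAY _ _ ?_ ?_) (s30.2.trans s31.2.symm)
      (by rw [bt_comm, bt_comm (g (3, 4 * j + 3))]; exact m1) <;> omega
  have m3 : Bt (g (3, 4 * j)) (g (3, 4 * j + 1)) (g (0, leg Q (4 * j + 3))) ↔
      Bt (g (3, 4 * j)) (g (3, 4 * j + 1)) (g (0, leg Q (4 * j + 2))) := by
    refine swap_pairs (nAY _ _ ?_ ?_) (nAY _ _ ?_ ?_) (nAY _ _ ?_ ?_) (nAY _ _ ?_ ?_) m2 <;> omega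
  have m4 : Bt (g (0, leg Q (4 * j))) (g (3, 4 * j + 1)) (g (0, leg Q (4 * j + 3))) ↔
      Bt (g (0, leg Q (4 * j))) (g (3, 4 * j + 1)) (g (0, leg Q (4 * j + 2))) := by
    refine move (y := g (3, 4 * j)) (nAY _ _ ?_ ?_) (nAA _ _ ?_ ?_ ?_) (nAA _ _ ?_ ?_ ?_)
      (nYY _ _ ?_ ?_ ?_) (nAY _ _ ?_ ?_).symm (nAY _ _ ?_ ?_).symm (nAY _ _ ?_ ?_).symm
      (nAY _ _ ?_ ?_).symm (s03.1.trans s02.1.symm) m3 <;> omega
  have m5 : Bt (g (0, leg Q (4 * j + 1))) (g (0, leg Q (4 * j))) (g (0, leg Q (4 * j + 3))) ↔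
      Bt (g (0, leg Q (4 * j + 1))) (g (0, leg Q (4 * j))) (g (0, leg Q (4 * j + 2))) := by
    refine move (y := g (3, 4 * j + 1)) (nAA _ _ ?_ ?_ ?_) (nAA _ _ ?_ ?_ ?_) (nAA _ _ ?_ ?_ ?_)
      (nAY _ _ ?_ ?_).symm (nAY _ _ ?_ ?_).symm (nAY _ _ ?_ ?_).symm (nAA _ _ ?_ ?_ ?_)
      (nAA _ _ ?_ ?_ ?_) (s13.1.trans s12.1.symm)
      (by rw [bt_comm, bt_comm (g (3, 4 * j + 1))]; exact m4) <;> omega
  rw [bt_comm, bt_comm (g (0, leg Q (4 * j)))]
  exact m5.symm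

end

end Pool.Agent.H558Z.Alt
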