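import Pool.Agent.NPC.Dec
import Pool.Agent.H671R2.ZDefs

/-!
# Definitions: cyclic orderings without alternating-edge obstruction
-/

namespace Pool.Agent.H558Z.Alt

open Pool.Agent.NPC Pool.Agent.NPC.R671

/-- `a, b, c, d` form an alternating-edge obstruction of the graph `G` with the cyclic order `o` on
its vertices: they are met in this cyclic order (in particular they are distinct), `ac` and `bd`
are edges, and none of `ab`, `bc`, `cd`, `da` is an edge. -/
def Obstruction {V : Type*} (G : SimpleGraph V) (o : CircularOrder V) (a b c d : V) : Prop :=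
  o.sbtw a b c ∧ o.sbtw a c d ∧ G.Adj a c ∧ G.Adj b d ∧
    ¬ G.Adj a b ∧ ¬ G.Adj b c ∧ ¬ G.Adj c d ∧ ¬ G.Adj d a

/-- `G` has a cyclic ordering with no alternating-edge obstruction. -/
def HasGoodOrdering {V : Type*} (G : SimpleGraph V) : Prop :=
  ∃ o : CircularOrder V, ∀ a b c d, ¬ Obstruction G o a b c d

/-- The input, as a bit string: the adjacency matrix of the graph. -/
noncomputable def input {n : ℕ} (G : SimpleGraph (Fin n)) : List Bool := bits (adjMatrix G)

/-- The decision problem: given (the adjacency matrix of) a graph, does it have a cyclic ordering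
with no alternating-edge obstruction? -/
def GoodOrdering (M : List (List Bool)) : Prop :=
  ∃ (n : ℕ) (G : SimpleGraph (Fin n)), adjMatrix G = M ∧ HasGoodOrdering G

/-- There is a polynomial-time algorithm that decides, for every finite bipartite graph `G`,
whether `G` has a cyclic ordering with no alternating-edge obstruction. -/
def SolvableOnBipartite : Prop :=
  ∃ A : List Bool → List Bool, PolyTime A ∧ ∀ (n : ℕ) (G : SimpleGraph (Fin n)),
    G.IsBipartite → (A (input G) = [true] ↔ HasGoodOrdering G)

/-- `P = NP`. -/
def PEqNP : Prop := ∀ L : Set (List Bool), InNP L → InP L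

end Pool.Agent.H558Z.Alt
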