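import Pool.Agent.H558Z.Alt.Defs

/-!
# Cyclic orders and linear orders
-/

namespace Pool.Agent.H558Z.Alt

/-- the linear form of the condition -/
def LinGood {V : Type*} (G : SimpleGraph V) (f : V → ℕ) : Prop :=
  ∀ a b c d, f a < f b → f b < f c → f c < f d → G.Adj a c → G.Adj b d →
    G.Adj a b ∨ G.Adj b c ∨ G.Adj c d ∨ G.Adj d a

theorem good_of_lin {V : Type*} (G : SimpleGraph V) (f : V → ℕ) (hf : Function.Injective f)
    (h : LinGood G f) : HasGoodOrdering G := by
  classical
  letI : LinearOrder V := LinearOrder.lift' f hf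
  refine ⟨LinearOrder.toCircularOrder V, ?_⟩
  rintro a b c d ⟨h1, h2, hac, hbd, n1, n2, n3, n4⟩
  change (f a < f b ∧ f b < f c) ∨ (f b < f c ∧ f c < f a) ∨ (f c < f a ∧ f a < f b) at h1
  change (f a < f c ∧ f c < f d) ∨ (f c < f d ∧ f d < f a) ∨ (f d < f a ∧ f a < f c) at h2
  have key : (f a < f b ∧ f b < f c ∧ f c < f d) ∨ (f b < f c ∧ f c < f d ∧ f d < f a) ∨
      (f c < f d ∧ f d < f a ∧ f a < f b) ∨ (f d < f a ∧ f a < f b ∧ f b < f c) := by omega
  rcases key with ⟨x, y, z⟩ | ⟨x, y, z⟩ | ⟨x, y, z⟩ | ⟨x, y, z⟩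
  · have := h a b c d x y z hac hbd
    tauto
  · have := h b c d a x y z hbd hac.symm
    tauto
  · have := h c d a b x y z hac.symm hbd.symm
    tauto
  · have := h d a b c x y z hbd.symm hac
    tauto

theorem lin_of_good {V : Type*} [Fintype V] (G : SimpleGraph V) (h : HasGoodOrdering G) :
    ∃ f : V → ℕ, Function.Injective f ∧ (∀ v, f v < Fintype.card V) ∧ LinGood G f := by
  classical
  obtain ⟨o, ho⟩ := h
  rcases isEmpty_or_nonempty V with hV | ⟨⟨p⟩⟩
  · exact ⟨fun _ => 0, fun a => hV.elim a, fun a => hV.elim a, fun a => hV.elim a⟩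
  let lt : V → V → Prop := fun x y => x ≠ y ∧ (x = p ∨ sbtw p x y)
  have hne : ∀ x y, lt x y → y ≠ p := by
    rintro x y ⟨h1, h2 | h2⟩ h3
    · exact h1 (h2.trans h3.symm)
    · rw [h3] at h2
      exact sbtw_irrefl_left_right h2
  have hsb : ∀ x y z, lt x y → lt y z → sbtw x y z := by
    intro x y z h1 h2
    have hy := hne x y h1
    obtain ⟨_, h3 | h3⟩ := h2
    · exact absurd h3 hy
    obtain ⟨_, h4 | h4⟩ := h1
    · rw [h4]; exact h3
    · exact (h3.cyclic_left.trans_right h4.cyclic_right).cyclic_right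
  have htr : ∀ x y z, lt x y → lt y z → lt x z := by
    intro x y z h1 h2
    have h5 := hsb x y z h1 h2
    have hy := hne x y h1
    refine ⟨fun e => ?_, ?_⟩
    · rw [e] at h5
      exact sbtw_irrefl_left_right h5
    obtain ⟨_, h3 | h3⟩ := h2
    · exact absurd h3 hy
    obtain ⟨_, h4 | h4⟩ := h1
    · exact Or.inl h4
    · exact Or.inr (h4.trans_right h3)
  have htot : ∀ x y, x ≠ y → lt x y ∨ lt y x := by
    intro x y hxy
    by_cases hx : x = p
    · exact Or.inl ⟨hxy, Or.inl hx⟩
    by_cases hy : y = p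
    · exact Or.inr ⟨hxy.symm, Or.inl hy⟩
    by_cases h1 : sbtw p x y
    · exact Or.inl ⟨hxy, Or.inr h1⟩
    by_cases h2 : sbtw p y x
    · exact Or.inr ⟨hxy.symm, Or.inr h2⟩
    exfalso
    rw [sbtw_iff_not_btw, not_not] at h1 h2
    rcases (h1.cyclic_right).antisymm h2 with e | e | e
    · exact hy e.symm
    · exact hxy e.symm
    · exact hx e
  let f : V → ℕ := fun x => (Finset.univ.filter (fun y => lt y x)).card
  have hmono : ∀ x y, lt x y → f x < f y := by
    intro x y hxy
    apply Finset.card_lt_card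
    rw [Finset.ssubset_iff_of_subset]
    · exact ⟨x, by simpa using hxy, by simp [lt]⟩
    · intro z hz
      simp only [Finset.mem_filter, Finset.mem_univ, true_and] at hz ⊢
      exact htr z x y hz hxy
  have hrev : ∀ x y, f x < f y → lt x y := by
    intro x y hxy
    have hne : x ≠ y := fun e => by rw [e] at hxy; exact lt_irrefl _ hxy
    rcases htot x y hne with h | h
    · exact h
    · exact absurd (hmono y x h) (by omega)
  refine ⟨f, ?_, ?_, ?_⟩
  · intro x y hxy
    by_contra hne
    rcases htot x y hne with h | h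
    · have := hmono _ _ h
      omega
    · have := hmono _ _ h
      omega
  · intro v
    apply Finset.card_lt_card
    rw [Finset.ssubset_iff_of_subset (Finset.subset_univ _)]
    exact ⟨v, Finset.mem_univ _, by simp [lt]⟩
  · intro a b c d h1 h2 h3 hac hbd
    by_contra hcon
    simp only [not_or] at hcon
    have l1 := hrev _ _ h1
    have l2 := hrev _ _ h2
    have l3 := hrev _ _ h3
    exact ho a b c d ⟨hsb _ _ _ l1 l2, hsb _ _ _ (htr _ _ _ l1 l2) l3, hac, hbd, hcon.1, hcon.2.1,
      hcon.2.2.1, hcon.2.2.2⟩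

end Pool.Agent.H558Z.Alt
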