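import Pool.Agent.H558Z.Alt.Comb
import Pool.Agent.NPC.Sat2

/-!
# From 3SAT to non-crossing constraints

The legs `0` and `1` are two poles, the leg `2` stands for the truth value false.
-/

namespace Pool.Agent.H558Z.Alt

open Pool.Agent.NPC

/-- formulas -/
abbrev Fm : Type := List (Lit ℕ × Lit ℕ × Lit ℕ)

/-- `q` is between `p` and `r`, as seen from the leg `0` -/
def bq (p q r : ℕ) : List Quad := [(p, q, r, 0), (q, r, p, 0)]

/-- the leg of a literal -/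
def lg (l : Lit ℕ) : ℕ := 4 * l.2 + (bif l.1 then 4 else 5)

/-- the constraints of a clause -/
def cq (c : Lit ℕ × Lit ℕ × Lit ℕ) (e : ℕ) : List Quad :=
  bq (4 * c.1.2 + 4) 1 (4 * c.1.2 + 5) ++ (bq (4 * c.2.1.2 + 4) 1 (4 * c.2.1.2 + 5) ++
  (bq (4 * c.2.2.2 + 4) 1 (4 * c.2.2.2 + 5) ++ (bq (lg c.1) (4 * e + 6) (lg c.2.1) ++
  (bq (lg c.2.2) (4 * e + 7) 2 ++ bq (4 * e + 6) 1 (4 * e + 7)))))

/-- all constraints -/
def QQ (φ : Fm) : List Quad := φ.zipIdx.flatMap (fun p => cq p.1 p.2)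

/-- the bound -/
def MM (φ : Fm) : ℕ := 4 * (QQ φ).length + (12 * φ.length + 8)

theorem mem_QQ {φ : Fm} {q : Quad} :
    q ∈ QQ φ ↔ ∃ e, ∃ h : e < φ.length, q ∈ cq φ[e] e := by
  unfold QQ
  rw [List.mem_flatMap]
  constructor
  · rintro ⟨⟨c, e⟩, h1, h2⟩
    rw [List.mem_zipIdx_iff_getElem?] at h1
    simp only at h1 h2
    obtain ⟨h, h3⟩ := List.getElem?_eq_some_iff.1 h1
    exact ⟨e, h, by rw [h3]; exact h2⟩
  · rintro ⟨e, h, h2⟩
    refine ⟨(φ[e], e), ?_, h2⟩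
    rw [List.mem_zipIdx_iff_getElem?]
    exact List.getElem?_eq_getElem h

theorem lg_cases (l : Lit ℕ) :
    (l.1 = true ∧ lg l = 4 * l.2 + 4) ∨ (l.1 = false ∧ lg l = 4 * l.2 + 5) := by
  obtain ⟨b, v⟩ := l
  cases b <;> simp [lg]

theorem mem_bq {p q r : ℕ} {x : Quad} : x ∈ bq p q r ↔ x = (p, q, r, 0) ∨ x = (q, r, p, 0) := by
  simp [bq]

theorem bd_QQ {φ : Fm} (hb : Bounded3 φ) : Bd (QQ φ) (MM φ) := by
  intro q hq
  obtain ⟨e, h, hq⟩ := mem_QQ.1 hq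
  have h1 := hb _ (List.getElem_mem h)
  have h2 := lg_cases φ[e].1
  have h3 := lg_cases φ[e].2.1
  have h4 := lg_cases φ[e].2.2
  have k2 : lg φ[e].1 ≤ 4 * φ[e].1.2 + 5 := by omega
  have k3 : lg φ[e].2.1 ≤ 4 * φ[e].2.1.2 + 5 := by omega
  have k4 : lg φ[e].2.2 ≤ 4 * φ[e].2.2.2 + 5 := by omega
  clear h2 h3 h4
  unfold MM
  simp only [cq, List.mem_append, mem_bq] at hq
  rcases hq with (rfl | rfl) | (rfl | rfl) | (rfl | rfl) | (rfl | rfl) | (rfl | rfl) |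
    (rfl | rfl) <;> simp only <;> omega

/-! ### Completeness -/

/-- the position of a literal -/
def lp (C : ℕ) (τ : ℕ → Bool) (l : Lit ℕ) : ℕ :=
  if τ l.2 = l.1 then C + 3 * (l.2 + 1) else C - 3 * (l.2 + 1)

/-- the positions of the legs -/
def ps (φ : Fm) (τ : ℕ → Bool) (t : ℕ) : ℕ :=
  let C := 9 * φ.length + 9
  let c := φ.getD (t / 4 - 1) ((true, 0), (true, 0), (true, 0))
  if t = 0 then 0 else if t = 1 then C else if t = 2 then 3
  else if t % 4 = 0 then lp C τ (true, t / 4 - 1)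
  else if t % 4 = 1 then lp C τ (false, t / 4 - 1)
  else if t % 4 = 2 then
    (if (lp C τ c.1 < C ↔ lp C τ c.2.1 < C) then min (lp C τ c.1) (lp C τ c.2.1) + 1 else C + 1)
  else (if lp C τ c.1 < C ∧ lp C τ c.2.1 < C then C + 1 else 4)

theorem ps_pos (φ : Fm) (τ : ℕ → Bool) (v : ℕ) :
    ps φ τ (4 * v + 4) = lp (9 * φ.length + 9) τ (true, v) := by
  unfold ps
  simp only
  rw [if_neg (by omega), if_neg (by omega), if_neg (by omega), if_pos (by omega),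
    show (4 * v + 4) / 4 - 1 = v by omega]

theorem ps_neg (φ : Fm) (τ : ℕ → Bool) (v : ℕ) :
    ps φ τ (4 * v + 5) = lp (9 * φ.length + 9) τ (false, v) := by
  unfold ps
  simp only
  rw [if_neg (by omega), if_neg (by omega), if_neg (by omega), if_neg (by omega),
    if_pos (by omega), show (4 * v + 5) / 4 - 1 = v by omega]

theorem ps_lg (φ : Fm) (τ : ℕ → Bool) (l : Lit ℕ) :
    ps φ τ (lg l) = lp (9 * φ.length + 9) τ l := by
  obtain ⟨b, v⟩ := l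
  cases b
  · exact ps_neg φ τ v
  · exact ps_pos φ τ v

theorem ps_d (φ : Fm) (τ : ℕ → Bool) (e : ℕ) (h : e < φ.length) :
    ps φ τ (4 * e + 6) = (if (lp (9 * φ.length + 9) τ φ[e].1 < 9 * φ.length + 9 ↔
      lp (9 * φ.length + 9) τ φ[e].2.1 < 9 * φ.length + 9) then
      min (lp (9 * φ.length + 9) τ φ[e].1) (lp (9 * φ.length + 9) τ φ[e].2.1) + 1
      else 9 * φ.length + 9 + 1) := by
  unfold ps
  simp only
  rw [if_neg (by omega), if_neg (by omega), if_neg (by omega), if_neg (by omega),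
    if_neg (by omega), if_pos (by omega), show (4 * e + 6) / 4 - 1 = e by omega,
    List.getD_eq_getElem _ _ h]

theorem ps_e (φ : Fm) (τ : ℕ → Bool) (e : ℕ) (h : e < φ.length) :
    ps φ τ (4 * e + 7) = (if lp (9 * φ.length + 9) τ φ[e].1 < 9 * φ.length + 9 ∧
      lp (9 * φ.length + 9) τ φ[e].2.1 < 9 * φ.length + 9 then 9 * φ.length + 9 + 1 else 4) := by
  unfold ps
  simp only
  rw [if_neg (by omega), if_neg (by omega), if_neg (by omega), if_neg (by omega),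
    if_neg (by omega), if_neg (by omega), show (4 * e + 7) / 4 - 1 = e by omega,
    List.getD_eq_getElem _ _ h]

theorem sep_bq {pos : ℕ → ℕ} (h0 : pos 0 = 0) {p q r : ℕ} (hp : 0 < pos p) (hr : 0 < pos r)
    (h : Bt (pos p) (pos r) (pos q)) {x : Quad} (hx : x ∈ bq p q r) :
    Sep (pos x.1) (pos x.2.1) (pos x.2.2.1) (pos x.2.2.2) := by
  rcases mem_bq.1 hx with rfl | rfl <;> simp only [h0] <;> unfold Sep Ou Bt at * <;> omega

theorem lp_cases (C : ℕ) (τ : ℕ → Bool) (l : Lit ℕ) :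
    (τ l.2 = l.1 ∧ lp C τ l = C + 3 * (l.2 + 1)) ∨ (τ l.2 ≠ l.1 ∧ lp C τ l = C - 3 * (l.2 + 1)) := by
  unfold lp
  by_cases h : τ l.2 = l.1
  · exact Or.inl ⟨h, if_pos h⟩
  · exact Or.inr ⟨h, if_neg h⟩

theorem var_bt (φ : Fm) (τ : ℕ → Bool) {v : ℕ} (hv : v < 3 * φ.length) :
    0 < ps φ τ (4 * v + 4) ∧ 0 < ps φ τ (4 * v + 5) ∧
      Bt (ps φ τ (4 * v + 4)) (ps φ τ (4 * v + 5)) (ps φ τ 1) := by
  rw [ps_pos, ps_neg, show ps φ τ 1 = 9 * φ.length + 9 from rfl]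
  unfold lp Bt
  cases τ v <;> simp <;> omega

theorem sep_of_sat {φ : Fm} (hd : Distinct3 φ) (hb : Bounded3 φ) (h : SAT3 φ) :
    ∃ pos : ℕ → ℕ, ∀ q ∈ QQ φ, Sep (pos q.1) (pos q.2.1) (pos q.2.2.1) (pos q.2.2.2) := by
  obtain ⟨τ, hτ⟩ := h
  refine ⟨ps φ τ, fun q hq => ?_⟩
  obtain ⟨e, he, hq⟩ := mem_QQ.1 hq
  have h1 := hb _ (List.getElem_mem he)
  have h2 := hd _ (List.getElem_mem he)
  have h3 := hτ _ (List.getElem_mem he)
  have h0 : ps φ τ 0 = 0 := rfl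
  have p1 : ps φ τ 1 = 9 * φ.length + 9 := rfl
  have p2 : ps φ τ 2 = 3 := rfl
  have pd := ps_d φ τ e he
  have pe := ps_e φ τ e he
  have ca := lp_cases (9 * φ.length + 9) τ φ[e].1
  have cb := lp_cases (9 * φ.length + 9) τ φ[e].2.1
  have cc := lp_cases (9 * φ.length + 9) τ φ[e].2.2
  have key : (9 ≤ lp (9 * φ.length + 9) τ φ[e].1 ∧ 9 ≤ lp (9 * φ.length + 9) τ φ[e].2.1 ∧
      9 ≤ lp (9 * φ.length + 9) τ φ[e].2.2) ∧
      Bt (lp (9 * φ.length + 9) τ φ[e].1) (lp (9 * φ.length + 9) τ φ[e].2.1) (ps φ τ (4 * e + 6)) ∧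
      Bt (lp (9 * φ.length + 9) τ φ[e].2.2) 3 (ps φ τ (4 * e + 7)) ∧
      Bt (ps φ τ (4 * e + 6)) (ps φ τ (4 * e + 7)) (9 * φ.length + 9) ∧
      0 < ps φ τ (4 * e + 6) ∧ 0 < ps φ τ (4 * e + 7) := by
    rw [pd, pe]
    unfold Bt
    rcases ca with ⟨a1, a2⟩ | ⟨a1, a2⟩ <;> rcases cb with ⟨b1, b2⟩ | ⟨b1, b2⟩ <;>
      rcases cc with ⟨c1, c2⟩ | ⟨c1, c2⟩ <;> rw [a2, b2, c2] <;>
      first
      | (exfalso; tauto)
      | (split_ifs <;> omega)
  obtain ⟨⟨k1, k2, k3⟩, k4, k5, k6, k7, k8⟩ := key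
  simp only [cq, List.mem_append] at hq
  rcases hq with hq | hq | hq | hq | hq | hq
  · have := var_bt φ τ h1.1
    exact sep_bq h0 this.1 this.2.1 this.2.2 hq
  · have := var_bt φ τ h1.2.1
    exact sep_bq h0 this.1 this.2.1 this.2.2 hq
  · have := var_bt φ τ h1.2.2
    exact sep_bq h0 this.1 this.2.1 this.2.2 hq
  · refine sep_bq h0 ?_ ?_ ?_ hq
    · rw [ps_lg]; omega
    · rw [ps_lg]; omega
    · rw [ps_lg, ps_lg]; exact k4
  · refine sep_bq h0 ?_ ?_ ?_ hq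
    · rw [ps_lg]; omega
    · rw [p2]; omega
    · rw [ps_lg, p2]; exact k5
  · exact sep_bq h0 k7 k8 (by rw [p1]; exact k6) hq

/-- ties can be broken -/
theorem sep_inj {Q : List Quad} {M : ℕ} (hB : Bd Q M) {pos : ℕ → ℕ}
    (h : ∀ q ∈ Q, Sep (pos q.1) (pos q.2.1) (pos q.2.2.1) (pos q.2.2.2)) :
    ∃ pos : ℕ → ℕ, (∀ s < M, ∀ t < M, pos s = pos t → s = t) ∧
      ∀ q ∈ Q, Sep (pos q.1) (pos q.2.1) (pos q.2.2.1) (pos q.2.2.2) := by
  have hlt : ∀ s < M, ∀ t, pos s < pos t → pos s * M + s < pos t * M + t := by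
    intro s hs t hst
    have : (pos s + 1) * M ≤ pos t * M := Nat.mul_le_mul_right M hst
    rw [add_mul, one_mul] at this
    omega
  refine ⟨fun t => pos t * M + t, ?_, ?_⟩
  · intro s hs t ht e
    simp only at e
    rcases lt_trichotomy (pos s) (pos t) with l | l | l
    · have := hlt s hs t l
      omega
    · rw [l] at e
      omega
    · have := hlt t ht s l
      omega
  · intro q hq
    obtain ⟨b1, b2, b3, b4⟩ := hB q hq
    have := h q hq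
    unfold Sep Bt Ou at *
    simp only
    rcases this with ⟨⟨x, y⟩ | ⟨x, y⟩, ⟨z, w⟩ | ⟨z, w⟩⟩ | ⟨⟨x, y⟩ | ⟨x, y⟩, ⟨z, w⟩ | ⟨z, w⟩⟩ <;>
      have x' := hlt _ (by assumption) _ x <;> have y' := hlt _ (by assumption) _ y <;>
      have z' := hlt _ (by assumption) _ z <;> have w' := hlt _ (by assumption) _ w <;> tauto

/-! ### Soundness -/

theorem opp {i m a b : ℕ} (h1 : i ≠ m) (h2 : i ≠ a) (h3 : i ≠ b) (h4 : m ≠ a) (h5 : m ≠ b)
    (h6 : a ≠ b) (e1 : Bt a m b ↔ Bt a m i) (e2 : Bt m b a ↔ Bt m b i) :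
    ¬ (Bt i m a ↔ Bt i m b) := by
  unfold Bt at *
  omega

theorem same {i m a b d : ℕ} (_h1 : i ≠ m) (h2 : i ≠ a) (h3 : i ≠ b) (h4 : m ≠ a) (h5 : m ≠ b)
    (h6 : a ≠ b) (h7 : i ≠ d) (h8 : m ≠ d) (h9 : a ≠ d) (h10 : b ≠ d)
    (e1 : Bt a d b ↔ Bt a d i) (e2 : Bt d b a ↔ Bt d b i) (e3 : Bt i m a ↔ Bt i m b) :
    (Bt i m d ↔ Bt i m a) := by
  unfold Bt at *
  omega

theorem prop3 {a b c : Prop} (h1 : ¬ (a ↔ b)) (h2 : ¬ (a ↔ c)) : b ↔ c := by tauto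

theorem sub_cq (c : Lit ℕ × Lit ℕ × Lit ℕ) (e : ℕ) :
    (∀ x ∈ bq (4 * c.1.2 + 4) 1 (4 * c.1.2 + 5), x ∈ cq c e) ∧
    (∀ x ∈ bq (4 * c.2.1.2 + 4) 1 (4 * c.2.1.2 + 5), x ∈ cq c e) ∧
    (∀ x ∈ bq (4 * c.2.2.2 + 4) 1 (4 * c.2.2.2 + 5), x ∈ cq c e) ∧
    (∀ x ∈ bq (lg c.1) (4 * e + 6) (lg c.2.1), x ∈ cq c e) ∧
    (∀ x ∈ bq (lg c.2.2) (4 * e + 7) 2, x ∈ cq c e) ∧
    (∀ x ∈ bq (4 * e + 6) 1 (4 * e + 7), x ∈ cq c e) := by
  simp only [cq, List.mem_append]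
  refine ⟨?_, ?_, ?_, ?_, ?_, ?_⟩ <;> intro x hx <;> simp only [hx, true_or, or_true]

theorem sat_of_pos {φ : Fm} (hd : Distinct3 φ) (hb : Bounded3 φ) (pos : ℕ → ℕ)
    (hinj : ∀ s < MM φ, ∀ t < MM φ, pos s = pos t → s = t)
    (h : ∀ q ∈ QQ φ, q.1 ≠ q.2.1 → q.1 ≠ q.2.2.1 → q.1 ≠ q.2.2.2 → q.2.1 ≠ q.2.2.1 →
      q.2.1 ≠ q.2.2.2 → q.2.2.1 ≠ q.2.2.2 →
      (Bt (pos q.1) (pos q.2.1) (pos q.2.2.1) ↔ Bt (pos q.1) (pos q.2.1) (pos q.2.2.2))) :
    SAT3 φ := by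
  classical
  refine ⟨fun v => decide (¬ (Bt (pos 0) (pos 1) (pos (4 * v + 4)) ↔ Bt (pos 0) (pos 1) (pos 2))),
    fun c hc => ?_⟩
  obtain ⟨e, he, rfl⟩ := List.getElem_of_mem hc
  have h1 := hb _ (List.getElem_mem he)
  have h2 := hd _ (List.getElem_mem he)
  have ne : ∀ s t, s < 12 * φ.length + 8 → t < 12 * φ.length + 8 → s ≠ t → pos s ≠ pos t :=
    fun s t a b c e => c (hinj s (by unfold MM; omega) t (by unfold MM; omega) e)
  have hq : ∀ p q r, p ≠ 0 → q ≠ 0 → r ≠ 0 → p ≠ q → p ≠ r → q ≠ r →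
      (∀ x ∈ bq p q r, x ∈ cq φ[e] e) →
      (Bt (pos p) (pos q) (pos r) ↔ Bt (pos p) (pos q) (pos 0)) ∧
      (Bt (pos q) (pos r) (pos p) ↔ Bt (pos q) (pos r) (pos 0)) := by
    intro p q r a1 a2 a3 a4 a5 a6 hx
    exact ⟨h (p, q, r, 0) (mem_QQ.2 ⟨e, he, hx _ (mem_bq.2 (Or.inl rfl))⟩) a4 a5 a1 a6 a2 a3,
      h (q, r, p, 0) (mem_QQ.2 ⟨e, he, hx _ (mem_bq.2 (Or.inr rfl))⟩) a6 a4.symm a2 a5.symm a3 a1⟩
  -- a false literal is on the side of the leg `2`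
  have lit : ∀ l : Lit ℕ, l.2 < 3 * φ.length →
      (∀ x ∈ bq (4 * l.2 + 4) 1 (4 * l.2 + 5), x ∈ cq φ[e] e) →
      ¬ (decide (¬ (Bt (pos 0) (pos 1) (pos (4 * l.2 + 4)) ↔ Bt (pos 0) (pos 1) (pos 2))) = l.1) →
      (Bt (pos 0) (pos 1) (pos (lg l)) ↔ Bt (pos 0) (pos 1) (pos 2)) := by
    intro l hl hx hn
    obtain ⟨e1, e2⟩ := hq _ _ _ (by omega) (by omega) (by omega) (by omega) (by omega)
      (by omega) hx
    have o := opp (ne 0 1 (by omega) (by omega) (by omega)) (ne _ _ (by omega) (by omega) (by omega))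
      (ne _ _ (by omega) (by omega) (by omega)) (ne _ _ (by omega) (by omega) (by omega))
      (ne _ _ (by omega) (by omega) (by omega)) (ne _ _ (by omega) (by omega) (by omega)) e1 e2
    rcases lg_cases l with ⟨b, e⟩ | ⟨b, e⟩
    · rw [b] at hn
      rw [e]
      simp only [decide_eq_true_eq, not_not] at hn
      exact hn
    · rw [b] at hn
      rw [e]
      simp only [decide_eq_false_iff_not, not_not] at hn
      exact prop3 o hn
  by_contra hcon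
  simp only [not_or] at hcon
  obtain ⟨u1, u2, u3, u4, u5, u6⟩ := sub_cq φ[e] e
  have la := lit φ[e].1 h1.1 u1 hcon.1
  have lb := lit φ[e].2.1 h1.2.1 u2 hcon.2.1
  have lc := lit φ[e].2.2 h1.2.2 u3 hcon.2.2
  have ga : lg φ[e].1 = 4 * φ[e].1.2 + 4 ∨ lg φ[e].1 = 4 * φ[e].1.2 + 5 := by
    exact (lg_cases φ[e].1).imp (fun h => h.2) (fun h => h.2)
  have gb : lg φ[e].2.1 = 4 * φ[e].2.1.2 + 4 ∨ lg φ[e].2.1 = 4 * φ[e].2.1.2 + 5 := by
    exact (lg_cases φ[e].2.1).imp (fun h => h.2) (fun h => h.2)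
  have gc : lg φ[e].2.2 = 4 * φ[e].2.2.2 + 4 ∨ lg φ[e].2.2 = 4 * φ[e].2.2.2 + 5 := by
    exact (lg_cases φ[e].2.2).imp (fun h => h.2) (fun h => h.2)
  clear hcon lit
  obtain ⟨d1, d2⟩ := hq (lg φ[e].1) (4 * e + 6) (lg φ[e].2.1) (by omega) (by omega) (by omega)
    (by omega) (by omega) (by omega) u4
  obtain ⟨f1, f2⟩ := hq (lg φ[e].2.2) (4 * e + 7) 2 (by omega) (by omega) (by omega)
    (by omega) (by omega) (by omega) u5
  obtain ⟨g1, g2⟩ := hq (4 * e + 6) 1 (4 * e + 7) (by omega) (by omega) (by omega)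
    (by omega) (by omega) (by omega) u6
  have sd := same (i := pos 0) (m := pos 1) (ne 0 1 (by omega) (by omega) (by omega))
    (ne _ _ (by omega) (by omega) (by omega)) (ne _ _ (by omega) (by omega) (by omega))
    (ne _ _ (by omega) (by omega) (by omega)) (ne _ _ (by omega) (by omega) (by omega))
    (ne _ _ (by omega) (by omega) (by omega)) (ne _ _ (by omega) (by omega) (by omega))
    (ne _ _ (by omega) (by omega) (by omega)) (ne _ _ (by omega) (by omega) (by omega))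
    (ne _ _ (by omega) (by omega) (by omega)) d1 d2 (la.trans lb.symm)
  have se := same (i := pos 0) (m := pos 1) (ne 0 1 (by omega) (by omega) (by omega))
    (ne _ _ (by omega) (by omega) (by omega)) (ne _ _ (by omega) (by omega) (by omega))
    (ne _ _ (by omega) (by omega) (by omega)) (ne _ _ (by omega) (by omega) (by omega))
    (ne _ _ (by omega) (by omega) (by omega)) (ne _ _ (by omega) (by omega) (by omega))
    (ne _ _ (by omega) (by omega) (by omega)) (ne _ _ (by omega) (by omega) (by omega))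
    (ne _ _ (by omega) (by omega) (by omega)) f1 f2 lc
  have o := opp (ne 0 1 (by omega) (by omega) (by omega)) (ne _ _ (by omega) (by omega) (by omega))
    (ne _ _ (by omega) (by omega) (by omega)) (ne _ _ (by omega) (by omega) (by omega))
    (ne _ _ (by omega) (by omega) (by omega)) (ne _ _ (by omega) (by omega) (by omega)) g1 g2
  exact o ((sd.trans la).trans (se.trans lc).symm)

end Pool.Agent.H558Z.Alt
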