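import Pool.Agent.H558Z.Alt.NP
import Pool.Agent.H558Z.Alt.Sat

/-!
# The reduction
-/

namespace Pool.Agent.H558Z.Alt

open Pool.Agent.NPC Pool.Agent.NPC.R671

/-- the labels of the vertices -/
def vs (M : ℕ) : List (ℕ × ℕ) := (List.range 4) ×ˢ (List.range M)

theorem mem_vs {M : ℕ} {x : ℕ × ℕ} : x ∈ vs M ↔ x.1 < 4 ∧ x.2 < M := by
  obtain ⟨a, b⟩ := x
  unfold vs
  rw [List.mem_product, List.mem_range, List.mem_range]

theorem vs_nodup (M : ℕ) : (vs M).Nodup := List.Nodup.product List.nodup_range List.nodup_range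

/-- the graph of a list of constraints -/
def gr (Q : List Quad) (M : ℕ) : SimpleGraph (Fin (vs M).length) :=
  listGraph (vs M) (ad Q) (ad_symm Q) (ad_irrefl Q)

theorem gr_adj (Q : List Quad) (M : ℕ) (i j : Fin (vs M).length) :
    (gr Q M).Adj i j ↔ ad Q (vs M)[i] (vs M)[j] = true := Iff.rfl

theorem gr_bip (Q : List Quad) (M : ℕ) : (gr Q M).IsBipartite := by
  refine ⟨SimpleGraph.Coloring.mk (fun i => if (vs M)[i].1 < 2 then 0 else 1) ?_⟩
  intro i j hij
  rw [gr_adj, ad_iff] at hij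
  rcases hij with h | h
  · have := ed_type h
    rw [if_pos this.1, if_neg (by omega)]
    decide
  · have := ed_type h
    rw [if_neg (by omega), if_pos this.1]
    decide

theorem gr_good {Q : List Quad} {M : ℕ} (hB : Bd Q M) {pos : ℕ → ℕ}
    (h : ∀ q ∈ Q, Sep (pos q.1) (pos q.2.1) (pos q.2.2.1) (pos q.2.2.2)) :
    HasGoodOrdering (gr Q M) := by
  obtain ⟨pos, hinj, hS⟩ := sep_inj hB h
  have hle : ∀ i j : Fin (vs M).length, key Q pos (vs M)[i] * (vs M).length + i ≤
      key Q pos (vs M)[j] * (vs M).length + j → key Q pos (vs M)[i] ≤ key Q pos (vs M)[j] := by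
    intro i j hij
    by_contra hc
    have h1 : (key Q pos (vs M)[j] + 1) * (vs M).length ≤ key Q pos (vs M)[i] * (vs M).length :=
      Nat.mul_le_mul_right _ (by omega)
    rw [add_mul, one_mul] at h1
    have := j.isLt
    omega
  refine good_of_lin _ (fun i => key Q pos (vs M)[i] * (vs M).length + i) ?_ ?_
  · intro i j e
    simp only at e
    have h1 := le_antisymm (hle i j e.le) (hle j i e.ge)
    rw [h1] at e
    exact Fin.ext (by omega)
  · intro a b c d h1 h2 h3 hac hbd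
    have m : ∀ i : Fin (vs M).length, (vs M)[i].2 < M := fun i => (mem_vs.1 (List.getElem_mem _)).2
    exact complete hB hinj hS (m a) (m b) (m c) (m d)
      ⟨hle _ _ h1.le, hle _ _ h2.le, hle _ _ h3.le⟩ hac hbd

theorem num_of_good {Q : List Quad} {M : ℕ} (h : HasGoodOrdering (gr Q M)) :
    ∃ g, Num Q M g := by
  classical
  obtain ⟨f, hf, _, hg⟩ := lin_of_good _ h
  have hex : ∀ z ∈ vs M, ∃ i : Fin (vs M).length, (vs M)[i] = z := by
    intro z hz
    obtain ⟨i, hi, h⟩ := List.getElem_of_mem hz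
    exact ⟨⟨i, hi⟩, h⟩
  choose v hv using hex
  refine ⟨fun z => if h : z ∈ vs M then f (v z h) else 0, ?_, ?_⟩
  · intro x y a b c d e
    have hx : x ∈ vs M := mem_vs.2 ⟨a, b⟩
    have hy : y ∈ vs M := mem_vs.2 ⟨c, d⟩
    simp only [dif_pos hx, dif_pos hy] at e
    rw [← hv x hx, ← hv y hy, hf e]
  · intro a b c d a1 a2 b1 b2 c1 c2 d1 d2
    have ha : a ∈ vs M := mem_vs.2 ⟨a1, a2⟩
    have hb : b ∈ vs M := mem_vs.2 ⟨b1, b2⟩
    have hc : c ∈ vs M := mem_vs.2 ⟨c1, c2⟩
    have hd : d ∈ vs M := mem_vs.2 ⟨d1, d2⟩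
    simp only [dif_pos ha, dif_pos hb, dif_pos hc, dif_pos hd]
    have := hg (v a ha) (v b hb) (v c hc) (v d hd)
    simp only [gr_adj, hv] at this
    exact this

theorem sat_iff {φ : Fm} (hd : Distinct3 φ) (hb : Bounded3 φ) :
    SAT3 φ ↔ HasGoodOrdering (gr (QQ φ) (MM φ)) := by
  constructor
  · intro h
    obtain ⟨pos, hp⟩ := sep_of_sat hd hb h
    exact gr_good (bd_QQ hb) hp
  · intro h
    obtain ⟨g, hg⟩ := num_of_good h
    refine sat_of_pos hd hb (fun t => g (0, t)) ?_ ?_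
    · intro s hs t ht e
      have := hg.inj (0, s) (0, t) (by simp) hs (by simp) ht e
      exact congrArg Prod.snd this
    · intro q hq
      exact sound hg (bd_QQ hb) (by unfold MM; omega) hq

/-! ### Polynomial time -/

theorem leg_poly : Poly (fun x : List Quad × ℕ => leg x.1 x.2) := by
  unfold leg
  fun_prop

attribute [local irreducible] leg

theorem ed_poly : Poly (fun x : List Quad × (ℕ × ℕ) × (ℕ × ℕ) => ed x.1 x.2.1 x.2.2) := by
  have h : Poly (fun x : List Quad × (ℕ × ℕ) × (ℕ × ℕ) => leg x.1 x.2.2.2) :=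
    leg_poly.comp (f := fun x : List Quad × (ℕ × ℕ) × (ℕ × ℕ) => (x.1, x.2.2.2)) (by fun_prop)
  unfold ed
  fun_prop

attribute [local irreducible] ed

theorem ad_poly : Poly (fun x : List Quad × (ℕ × ℕ) × (ℕ × ℕ) => ad x.1 x.2.1 x.2.2) := by
  unfold ad
  exact Poly.or ed_poly (ed_poly.comp (Poly.pair (Poly.fst Poly.id)
    (Poly.pair (Poly.snd (Poly.snd Poly.id)) (Poly.fst (Poly.snd Poly.id)))))

attribute [local irreducible] ad

theorem cq_poly : Poly (fun x : (Lit ℕ × Lit ℕ × Lit ℕ) × ℕ => cq x.1 x.2) := by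
  unfold cq bq lg
  fun_prop

attribute [local irreducible] cq

theorem QQ_poly : Poly QQ := by
  unfold QQ
  exact NPC.Poly.flatMap (F := fun (_ : Fm) p => cq p.1 p.2) (NPC.Poly.zipIdx Poly.id)
    (cq_poly.comp (Poly.snd Poly.id))

attribute [local irreducible] QQ

theorem vs_poly : Poly (fun φ : Fm => vs (MM φ)) := by
  have h : UPoly MM := by
    unfold MM
    exact UPoly.add (UPoly.mul (UPoly.const 4) (UPoly.length QQ_poly))
      (UPoly.add (UPoly.mul (UPoly.const 12) (UPoly.length Poly.id)) (UPoly.const 8))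
  unfold vs
  exact poly_product (NPC.Poly.const _) h.range

attribute [local irreducible] vs MM

theorem adj_poly : Poly (fun φ : Fm => (vs (MM φ)).map (fun u =>
    (vs (MM φ)).map (fun w => ad (QQ φ) u w))) :=
  NPC.Poly.map vs_poly (F := fun φ u => (vs (MM φ)).map (fun w => ad (QQ φ) u w))
    (NPC.Poly.map (l := fun x : Fm × (ℕ × ℕ) => vs (MM x.1))
      (F := fun x w => ad (QQ x.1) x.2 w) (vs_poly.comp (Poly.fst Poly.id))
      (ad_poly.comp (Poly.pair (QQ_poly.comp (Poly.fst (Poly.fst Poly.id)))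
        (Poly.pair (Poly.snd (Poly.fst Poly.id)) (Poly.snd Poly.id)))))

/-- Every language in `NP` is reduced, in polynomial time, to the problem for bipartite graphs. -/
theorem hard (L : Set (List Bool)) (hL : InNP L) :
    ∃ f : List Bool → List Bool, PolyTime f ∧ ∀ w, ∃ (n : ℕ) (G : SimpleGraph (Fin n)),
      f w = input G ∧ G.IsBipartite ∧ (w ∈ L ↔ HasGoodOrdering G) := by
  obtain ⟨g, hg, hpr, hgL⟩ := hardPr_SAT3b L hL
  refine ⟨fun w => bits ((vs (MM (g w))).map (fun u =>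
      (vs (MM (g w))).map (fun z => ad (QQ (g w)) u z))), PC.toPolyTime_bits adj_poly g hg,
      fun w => ?_⟩
  refine ⟨_, gr (QQ (g w)) (MM (g w)), ?_, gr_bip _ _, ?_⟩
  · unfold input gr
    rw [adjMatrix_listGraph]
  · rw [← sat_iff (hpr w).1 (hpr w).2.1, hgL w]

theorem pEqNP_of_solvable (h : SolvableOnBipartite) : PEqNP := by
  obtain ⟨A, hA, hA'⟩ := h
  intro L hL
  obtain ⟨f, hf, hfL⟩ := hard L hL
  refine ⟨fun w => A (f w), Pool.Agent.H642R2.TMSim.polyTime_comp hA hf, fun w => ?_⟩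
  obtain ⟨n, G, h1, h2, h3⟩ := hfL w
  change w ∈ L ↔ A (f w) = [true]
  rw [h1, hA' n G h2, h3]

end Pool.Agent.H558Z.Alt
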