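import Pool.Agent.H558Z.Alt.Lin
import Pool.Agent.H671R2.OrdNP2

/-!
# The problem is in `NP`
-/

namespace Pool.Agent.H558Z.Alt

open Pool.Agent.NPC Pool.Agent.NPC.R671 Pool.Agent.H671R2.Ord

/-- the test of four vertices -/
def tst (M : List (List Bool)) (w : List ℕ) (a b c d : ℕ) : Bool :=
  !(decide (w.getD a 0 < w.getD b 0) && decide (w.getD b 0 < w.getD c 0) &&
    decide (w.getD c 0 < w.getD d 0) && me M a c && me M b d) ||
  (me M a b || me M b c || me M c d || me M d a)

/-- the verifier: the certificate is the list of positions -/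
def R (x : List (List Bool) × List ℕ) : Bool :=
  wf x.1 && (pm x.1 x.2 &&
    (List.range x.2.length).all (fun a => (List.range x.2.length).all (fun b =>
      (List.range x.2.length).all (fun c => (List.range x.2.length).all (fun d =>
        tst x.1 x.2 a b c d)))))

theorem tst_iff {n : ℕ} (G : SimpleGraph (Fin n)) (w : List ℕ) (a b c d : Fin n) :
    tst (adjMatrix G) w a b c d = true ↔ (w.getD a 0 < w.getD b 0 → w.getD b 0 < w.getD c 0 →
      w.getD c 0 < w.getD d 0 → G.Adj a c → G.Adj b d →
      G.Adj a b ∨ G.Adj b c ∨ G.Adj c d ∨ G.Adj d a) := by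
  unfold tst
  rw [Bool.or_eq_true, Bool.not_eq_true', ← Bool.not_eq_true]
  simp only [Bool.or_eq_true, Bool.and_eq_true, decide_eq_true_eq, me_adj]
  tauto

theorem correct {n : ℕ} (G : SimpleGraph (Fin n)) :
    HasGoodOrdering G ↔ ∃ w : List ℕ, R (adjMatrix G, w) = true := by
  constructor
  · intro h
    obtain ⟨f, hf, hlt, hg⟩ := lin_of_good G h
    rw [Fintype.card_fin] at hlt
    have hget : ∀ i : Fin n, (List.ofFn f).getD i 0 = f i := by
      intro i
      rw [List.getD_eq_getElem _ _ (by rw [List.length_ofFn]; exact i.isLt), List.getElem_ofFn]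
    refine ⟨List.ofFn f, ?_⟩
    simp only [R, pm, Bool.and_eq_true, decide_eq_true_eq, List.all_eq_true, List.mem_range,
      List.length_ofFn, length_adjMatrix, Bool.or_eq_true, Bool.not_eq_true',
      decide_eq_false_iff_not]
    refine ⟨(wf_iff _).2 ⟨n, G, rfl⟩, ⟨⟨trivial, ?_⟩, ?_⟩, ?_⟩
    · intro a ha
      rw [List.mem_ofFn] at ha
      obtain ⟨i, rfl⟩ := ha
      exact hlt i
    · intro i hi j hj
      by_cases hij : i = j
      · exact Or.inl hij
      · right
        have h1 := hget ⟨i, hi⟩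
        have h2 := hget ⟨j, hj⟩
        simp only at h1 h2
        rw [h1, h2]
        intro e
        exact hij (congrArg Fin.val (hf e))
    · intro a ha b hb c hc d hd
      have := (tst_iff G (List.ofFn f) ⟨a, ha⟩ ⟨b, hb⟩ ⟨c, hc⟩ ⟨d, hd⟩).2 (by
        rw [hget, hget, hget, hget]
        exact hg _ _ _ _)
      exact this
  · rintro ⟨w, h⟩
    simp only [R, pm, Bool.and_eq_true, decide_eq_true_eq, List.all_eq_true, List.mem_range,
      length_adjMatrix, Bool.or_eq_true, Bool.not_eq_true', decide_eq_false_iff_not] at h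
    obtain ⟨_, ⟨⟨hlen, _⟩, hinj⟩, htst⟩ := h
    have hl : ∀ i : Fin n, (i : ℕ) < w.length := fun i => by rw [hlen]; exact i.isLt
    refine good_of_lin G (fun i => w.getD i 0) ?_ ?_
    · intro i j e
      rcases hinj i (hl i) j (hl j) with h | h
      · exact Fin.ext h
      · exact absurd e h
    · intro a b c d
      exact (tst_iff G w a b c d).1 (htst a (hl a) b (hl b) c (hl c) d (hl d))

theorem tst_poly : Poly (fun x : ((((List (List Bool) × List ℕ) × ℕ) × ℕ) × ℕ) × ℕ =>
    tst x.1.1.1.1.1 x.1.1.1.1.2 x.1.1.1.2 x.1.1.2 x.1.2 x.2) := by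
  unfold tst
  fun_prop

attribute [local irreducible] tst

theorem R_poly : Poly R := by
  unfold R
  have h1 : UPoly (fun x : List (List Bool) × List ℕ => x.2.length) :=
    UPoly.length (by fun_prop)
  have h2 : UPoly (fun x : ((List (List Bool) × List ℕ) × ℕ) × ℕ => x.1.1.2.length) :=
    UPoly.length (by fun_prop)
  refine NPC.Poly.and (wf_poly.comp (by fun_prop)) (NPC.Poly.and pm_poly ?_)
  refine all2_poly (α := List (List Bool) × List ℕ) (m := fun x => x.2.length) h1
    (F := fun x a b => (List.range x.2.length).all (fun c => (List.range x.2.length).all (fun d =>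
        tst x.1 x.2 a b c d))) ?_
  exact all2_poly (α := ((List (List Bool) × List ℕ) × ℕ) × ℕ) (m := fun x => x.1.1.2.length) h2
    (F := fun x c d => tst x.1.1.1 x.1.1.2 x.1.2 x.2 c d) tst_poly

theorem good_iff (M : List (List Bool)) : GoodOrdering M ↔ ∃ w : List ℕ, R (M, w) = true := by
  constructor
  · rintro ⟨n, G, h, hc⟩
    obtain ⟨w, hw⟩ := (correct G).1 hc
    rw [h] at hw
    exact ⟨w, hw⟩
  · rintro ⟨w, hw⟩
    have h1 : wf M = true := by
      simp only [R, Bool.and_eq_true] at hw
      exact hw.1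
    obtain ⟨n, G, h⟩ := (wf_iff _).1 h1
    refine ⟨n, G, h, (correct G).2 ⟨w, ?_⟩⟩
    rw [h]
    exact hw

/-- The problem is in `NP`. -/
theorem inNPP_good : InNPP GoodOrdering := by
  refine inNPP_of (R := R) R_poly (4 * Polynomial.X ^ 2 + 2 * Polynomial.X + 1) ?_
  intro x
  rw [good_iff]
  refine exists_congr fun w => ⟨fun h => ⟨cert_short (M := x) ?_, h⟩, fun h => h.2⟩
  simp only [R, Bool.and_eq_true] at h
  exact h.2.1

/-- If `P = NP` then the problem is solvable in polynomial time. -/
theorem solvable_of (h : PEqNP) : SolvableOnBipartite := by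
  obtain ⟨A, hA, hA'⟩ := h _ inNPP_good
  refine ⟨A, hA, fun n G _ => ?_⟩
  rw [← hA', correct]
  unfold input
  rw [bits_mem_lang, good_iff]

end Pool.Agent.H558Z.Alt
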